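import Mathlib
import Pool.Agent.N732.GV.Main

set_option autoImplicit false
set_option linter.unusedSectionVars false

/-! # Rough integers when a few primes are not used in the sieve -/

open Filter Set
open scoped Topology

namespace Pool.Agent.N732.GW

open Pool.Agent.N732.GV

/-- the integers `1 ≤ m ≤ y` without prime factor `≤ z` outside `B` -/
def roughB (z : ℕ) (B : Finset ℕ) (y : ℕ) : Finset ℕ :=
  (Finset.Icc 1 y).filter (fun m => ∀ p ∈ PZ z, p ∉ B → ¬ p ∣ m)

lemma roughB_empty (z y : ℕ) : roughB z ∅ y = rough z y := by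
  unfold roughB rough
  simp

lemma roughB_mono (z : ℕ) (B : Finset ℕ) {y y' : ℕ} (h : y ≤ y') : roughB z B y ⊆ roughB z B y' := by
  intro m hm
  unfold roughB at hm ⊢
  rw [Finset.mem_filter, Finset.mem_Icc] at hm ⊢
  exact ⟨⟨hm.1.1, hm.1.2.trans h⟩, hm.2⟩

lemma roughB_zero (z : ℕ) (B : Finset ℕ) : (roughB z B 0).card = 0 := by
  unfold roughB
  simp

lemma roughB_insert {z : ℕ} {B : Finset ℕ} {q : ℕ} (hq : 0 < q) (y : ℕ) :
    (roughB z (insert q B) y).card ≤ (roughB z B y).card + (roughB z (insert q B) (y / q)).card := by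
  classical
  have hsub : roughB z (insert q B) y ⊆ roughB z B y ∪ (roughB z (insert q B) (y / q)).image (q * ·) := by
    intro m hm
    rw [Finset.mem_union]
    unfold roughB at hm
    rw [Finset.mem_filter, Finset.mem_Icc] at hm
    obtain ⟨⟨h1, h2⟩, h3⟩ := hm
    by_cases hqm : q ∣ m
    · right
      obtain ⟨m', rfl⟩ := hqm
      rw [Finset.mem_image]
      refine ⟨m', ?_, rfl⟩
      unfold roughB
      rw [Finset.mem_filter, Finset.mem_Icc]
      refine ⟨⟨Nat.pos_of_mul_pos_left (by omega : 0 < q * m') , ?_⟩, ?_⟩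
      · rw [Nat.le_div_iff_mul_le hq, mul_comm]
        exact h2
      · intro p hp hpB hpm
        exact h3 p hp hpB (hpm.mul_left q)
    · left
      unfold roughB
      rw [Finset.mem_filter, Finset.mem_Icc]
      refine ⟨⟨h1, h2⟩, ?_⟩
      intro p hp hpB hpm
      by_cases hpq : p = q
      · exact hqm (hpq ▸ hpm)
      · exact h3 p hp (by rw [Finset.mem_insert]; tauto) hpm
  refine (Finset.card_le_card hsub).trans ((Finset.card_union_le _ _).trans ?_)
  exact add_le_add le_rfl Finset.card_image_le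

lemma crude {z : ℕ} {a b : ℝ} (ha : 0 ≤ a) (hb : 0 ≤ b) {Y : ℕ} (hY : 4 ≤ Y) {L : ℕ}
    (h0 : ∀ y ≤ L, ((rough z y).card : ℝ) ≤ a * y + b * √(y : ℝ)) (B : Finset ℕ) : (∀ p ∈ B, Y ≤ p) →
    ∀ y ≤ L, ((roughB z B y).card : ℝ) ≤ (1 + 2 / (Y : ℝ)) ^ B.card * a * y + 2 ^ B.card * b * √(y : ℝ) := by
  classical
  have hYR : (4 : ℝ) ≤ Y := by exact_mod_cast hY
  induction B using Finset.induction_on with
  | empty =>
    intro _ y hy
    rw [roughB_empty]
    simpa using h0 y hy
  | insert q B hq ih =>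
    intro hB
    have hqY : Y ≤ q := hB q (Finset.mem_insert_self _ _)
    have ih' := ih fun p hp => hB p (Finset.mem_insert_of_mem hp)
    have hq0 : 0 < q := by omega
    rw [Finset.card_insert_of_notMem hq]
    set α := (1 + 2 / (Y : ℝ)) ^ B.card * a with hα
    set β := 2 ^ B.card * b with hβ
    have hα0 : 0 ≤ α := by positivity
    have hβ0 : 0 ≤ β := by positivity
    have eα : (1 + 2 / (Y : ℝ)) ^ (B.card + 1) * a = (1 + 2 / (Y : ℝ)) * α := by rw [hα]; ring
    have eβ : (2 : ℝ) ^ (B.card + 1) * b = 2 * β := by rw [hβ]; ring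
    rw [eα, eβ]
    intro y
    induction y using Nat.strong_induction_on with
    | _ y ihy =>
      intro hy
      rcases Nat.eq_zero_or_pos y with h | h
      · subst h
        rw [roughB_zero]
        simp
      · have hdiv : y / q < y := Nat.div_lt_self h (by omega)
        have h1 := ihy (y / q) hdiv (by omega)
        have h2 := roughB_insert (z := z) (B := B) hq0 y
        have h2' : ((roughB z (insert q B) y).card : ℝ) ≤ (roughB z B y).card + (roughB z (insert q B) (y / q)).card := by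
          exact_mod_cast h2
        have h3 := ih' y hy
        have hqR : (Y : ℝ) ≤ q := by exact_mod_cast hqY
        have hy0 : (0 : ℝ) ≤ y := Nat.cast_nonneg y
        have h4 : ((y / q : ℕ) : ℝ) ≤ y / Y := by
          refine Nat.cast_div_le.trans ?_
          exact div_le_div_of_nonneg_left hy0 (by linarith) hqR
        have h5 : √((y / q : ℕ) : ℝ) ≤ √(y : ℝ) / 2 := by
          rw [Real.sqrt_le_left (by positivity), div_pow, Real.sq_sqrt hy0]
          refine h4.trans ?_
          exact div_le_div_of_nonneg_left hy0 (by norm_num) (by linarith)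
        have h6 : (1 + 2 / (Y : ℝ)) * α * ((y / q : ℕ) : ℝ) ≤ 2 / Y * α * y := by
          have h7 : (1 + 2 / (Y : ℝ)) ≤ 2 := by
            have : 2 / (Y : ℝ) ≤ 1 := by rw [div_le_one (by linarith)]; linarith
            linarith
          calc (1 + 2 / (Y : ℝ)) * α * ((y / q : ℕ) : ℝ) ≤ 2 * α * (y / Y) :=
                mul_le_mul (mul_le_mul_of_nonneg_right h7 hα0) h4 (Nat.cast_nonneg _) (by positivity)
            _ = _ := by ring
        have h7 : 2 * β * √((y / q : ℕ) : ℝ) ≤ β * √(y : ℝ) := by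
          calc 2 * β * √((y / q : ℕ) : ℝ) ≤ 2 * β * (√(y : ℝ) / 2) := mul_le_mul_of_nonneg_left h5 (by positivity)
            _ = _ := by ring
        calc ((roughB z (insert q B) y).card : ℝ) ≤ (α * y + β * √(y : ℝ)) +
              ((1 + 2 / (Y : ℝ)) * α * ((y / q : ℕ) : ℝ) + 2 * β * √((y / q : ℕ) : ℝ)) := by linarith
          _ ≤ (α * y + β * √(y : ℝ)) + (2 / Y * α * y + β * √(y : ℝ)) := by linarith
          _ = _ := by ring

lemma fine_sub {z : ℕ} (B : Finset ℕ) (hB : ∀ p ∈ B, 0 < p) (y : ℕ) :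
    (roughB z B y).card ≤ (rough z y).card + ∑ q ∈ B, (roughB z B (y / q)).card := by
  classical
  have hsub : roughB z B y ⊆ rough z y ∪ B.biUnion (fun q => (roughB z B (y / q)).image (q * ·)) := by
    intro m hm
    rw [Finset.mem_union]
    unfold roughB at hm
    rw [Finset.mem_filter, Finset.mem_Icc] at hm
    obtain ⟨⟨h1, h2⟩, h3⟩ := hm
    by_cases h : ∀ p ∈ PZ z, ¬ p ∣ m
    · left
      unfold rough
      rw [Finset.mem_filter, Finset.mem_Icc]
      exact ⟨⟨h1, h2⟩, h⟩
    · right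
      push Not at h
      obtain ⟨p, hp, hpm⟩ := h
      have hpB : p ∈ B := by
        by_contra hcon
        exact h3 p hp hcon hpm
      rw [Finset.mem_biUnion]
      refine ⟨p, hpB, ?_⟩
      obtain ⟨m', rfl⟩ := hpm
      rw [Finset.mem_image]
      refine ⟨m', ?_, rfl⟩
      unfold roughB
      rw [Finset.mem_filter, Finset.mem_Icc]
      refine ⟨⟨Nat.pos_of_mul_pos_left (by omega : 0 < p * m'), ?_⟩, ?_⟩
      · rw [Nat.le_div_iff_mul_le (hB p hpB), mul_comm]
        exact h2
      · intro p' hp' hpB' hpm'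
        exact h3 p' hp' hpB' (hpm'.mul_left p)
  refine (Finset.card_le_card hsub).trans ((Finset.card_union_le _ _).trans ?_)
  refine add_le_add le_rfl (Finset.card_biUnion_le.trans (Finset.sum_le_sum fun q _ => Finset.card_image_le))

/-- the final bound -/
lemma fine {z : ℕ} {a b : ℝ} (ha : 0 ≤ a) (hb : 0 ≤ b) {Y : ℕ} (hY : 4 ≤ Y) {L : ℕ}
    (h0 : ∀ y ≤ L, ((rough z y).card : ℝ) ≤ a * y + b * √(y : ℝ)) (B : Finset ℕ) (hB : ∀ p ∈ B, Y ≤ p) :
    ((roughB z B L).card : ℝ) ≤ (rough z L).card +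
      B.card * ((1 + 2 / (Y : ℝ)) ^ B.card * a * (L / Y) + 2 ^ B.card * b * √(L : ℝ)) := by
  classical
  have hYR : (4 : ℝ) ≤ Y := by exact_mod_cast hY
  have h1 := fine_sub (z := z) B (fun p hp => by have := hB p hp; omega) L
  have h1' : ((roughB z B L).card : ℝ) ≤ (rough z L).card + ∑ q ∈ B, ((roughB z B (L / q)).card : ℝ) := by exact_mod_cast h1
  refine h1'.trans (add_le_add le_rfl ?_)
  rw [← nsmul_eq_mul]
  refine Finset.sum_le_card_nsmul _ _ _ fun q hq => ?_
  have h2 := crude ha hb hY h0 B hB (L / q) (Nat.div_le_self _ _)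
  refine h2.trans ?_
  have hqR : (Y : ℝ) ≤ q := by exact_mod_cast hB q hq
  have hL0 : (0 : ℝ) ≤ L := Nat.cast_nonneg L
  have h4 : ((L / q : ℕ) : ℝ) ≤ L / Y := by
    refine Nat.cast_div_le.trans ?_
    exact div_le_div_of_nonneg_left hL0 (by linarith) hqR
  have h5 : √((L / q : ℕ) : ℝ) ≤ √(L : ℝ) := by
    apply Real.sqrt_le_sqrt
    exact_mod_cast Nat.div_le_self _ _
  exact add_le_add (mul_le_mul_of_nonneg_left h4 (by positivity)) (mul_le_mul_of_nonneg_left h5 (by positivity))

lemma MM_mono {a b : ℕ} (h : a ≤ b) : MM a ≤ MM b := by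
  have h1 := sum_inv_le h
  have h2 : 0 ≤ ∑ p ∈ (PZ b).filter (a < ·), (p : ℝ)⁻¹ := Finset.sum_nonneg fun p _ => by positivity
  have h3 : 1 ≤ MM b / MM a := by linarith
  rwa [le_div_iff₀ (MM_pos a), one_mul] at h3

lemma rough_small {z y : ℕ} (h : y < z) : (rough z y).card ≤ 1 := by
  rw [Finset.card_le_one]
  have key : ∀ m ∈ rough z y, m = 1 := by
    intro m hm
    unfold rough at hm
    rw [Finset.mem_filter, Finset.mem_Icc] at hm
    obtain ⟨⟨h1, h2⟩, h3⟩ := hm
    by_contra hne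
    have hp := Nat.minFac_prime hne
    have h4 := Nat.minFac_le (by omega : 0 < m)
    exact h3 _ (mem_PZ.2 ⟨hp, by omega⟩) (Nat.minFac_dvd m)
  intro m hm n hn
  rw [key m hm, key n hn]

lemma rough_le {K : ℝ} (hK : 0 < K)
    (hpi : ∀ x : ℝ, 2 ≤ x → (Nat.primeCounting ⌊x⌋₊ : ℝ) ≤ x / Real.log x + K * (x / Real.log x ^ 2) ∧
    (Nat.primeCounting ⌊x⌋₊ : ℝ) ≤ K * (x / Real.log x)) {z y : ℕ} (hz : 16 ≤ z) (hy : z ≤ y) (hy3 : y < z * z * z) {T : ℝ}
    (hT : MM (Nat.sqrt y) / MM z - 1 ≤ T) (hT0 : 0 ≤ T) :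
    ((rough z y).card : ℝ) ≤ 1 + K * (y / Real.log y) + 2 * K * (y / Real.log y) * T := by
  have hg16' : (16 : ℝ) ≤ y := by exact_mod_cast hz.trans hy
  set G : ℝ := (y : ℝ) with hG
  have hG0 : 0 < G := by linarith
  have hlG : 0 < Real.log G := Real.log_pos (by linarith)
  have h1 := rough_card (by omega : 1 ≤ z) hy3
  have h1' : ((rough z y).card : ℝ) ≤ 1 + Nat.primeCounting y +
      ∑ p ∈ (PZ (Nat.sqrt y)).filter (z < ·), (Nat.primeCounting (y / p) : ℝ) := by exact_mod_cast h1
  have h2 := (hpi G (by linarith)).2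
  rw [hG, Nat.floor_natCast, ← hG] at h2
  have h3 : ∑ p ∈ (PZ (Nat.sqrt y)).filter (z < ·), (Nat.primeCounting (y / p) : ℝ) ≤ 2 * K * (G / Real.log G) * T := by
    have h4 : ∀ p ∈ (PZ (Nat.sqrt y)).filter (z < ·), (Nat.primeCounting (y / p) : ℝ) ≤ 2 * K * (G / Real.log G) * (p : ℝ)⁻¹ := by
      intro p hp
      have hp1 := (mem_PZ.1 (Finset.mem_filter.1 hp).1)
      have hp0 : (0 : ℝ) < p := by exact_mod_cast hp1.1.pos
      have hpp : p * p ≤ y := Nat.le_sqrt.1 hp1.2
      have hpp' : (p : ℝ) * p ≤ G := by rw [hG]; exact_mod_cast hpp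
      have h5 : √G ≤ G / p := by
        rw [le_div_iff₀ hp0]
        have h6 : (p : ℝ) ≤ √G := Real.le_sqrt_of_sq_le (by rw [sq]; exact hpp')
        calc √G * p ≤ √G * √G := mul_le_mul_of_nonneg_left h6 (Real.sqrt_nonneg _)
          _ = G := Real.mul_self_sqrt hG0.le
      have h7 : (4 : ℝ) ≤ √G := Real.le_sqrt_of_sq_le (by norm_num; exact hg16')
      have h8 := (hpi (G / p) (by linarith)).2
      have h9 : ⌊G / p⌋₊ = y / p := by rw [hG]; exact Nat.floor_div_eq_div _ _
      rw [h9] at h8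
      refine h8.trans ?_
      have h10 : Real.log G / 2 ≤ Real.log (G / p) := by
        rw [← Real.log_sqrt hG0.le]
        exact Real.log_le_log (by linarith) h5
      have h11 : G / p / Real.log (G / p) ≤ G / p / (Real.log G / 2) :=
        div_le_div_of_nonneg_left (by positivity) (by positivity) h10
      calc K * (G / p / Real.log (G / p)) ≤ K * (G / p / (Real.log G / 2)) := mul_le_mul_of_nonneg_left h11 hK.le
        _ = _ := by field_simp
    refine (Finset.sum_le_sum h4).trans ?_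
    rw [← Finset.mul_sum]
    apply mul_le_mul_of_nonneg_left _ (by positivity)
    rcases Nat.lt_or_ge (Nat.sqrt y) z with h5 | h5
    · rw [Finset.filter_eq_empty_iff.2, Finset.sum_empty]
      · exact hT0
      · intro p hp
        have := (mem_PZ.1 hp).2
        omega
    · exact (sum_inv_le h5).trans hT
  linarith

/-- crude bound for all lengths up to `L` -/
lemma rough_crude {K : ℝ} (hK : 0 < K)
    (hpi : ∀ x : ℝ, 2 ≤ x → (Nat.primeCounting ⌊x⌋₊ : ℝ) ≤ x / Real.log x + K * (x / Real.log x ^ 2) ∧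
    (Nat.primeCounting ⌊x⌋₊ : ℝ) ≤ K * (x / Real.log x)) {z L : ℕ} (hz : 16 ≤ z) (hL3 : L < z * z * z)
    (hT : MM (Nat.sqrt L) / MM z - 1 ≤ 1) :
    ∀ y ≤ L, ((rough z y).card : ℝ) ≤ (3 * K / Real.log z) * y + 1 * √(y : ℝ) := by
  intro y hy
  have hzR : (16 : ℝ) ≤ z := by exact_mod_cast hz
  have hlz : 0 < Real.log z := Real.log_pos (by linarith)
  rcases Nat.eq_zero_or_pos y with h | h
  · subst h
    unfold rough
    simp
  have hy1 : (1 : ℝ) ≤ y := by exact_mod_cast h
  have hs1 : 1 ≤ √(y : ℝ) := by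
    rw [Real.one_le_sqrt]
    exact hy1
  rcases Nat.lt_or_ge y z with h1 | h1
  · have h2 : ((rough z y).card : ℝ) ≤ 1 := by exact_mod_cast rough_small h1
    have h3 : 0 ≤ (3 * K / Real.log z) * y := by positivity
    linarith
  · have h2 : MM (Nat.sqrt y) / MM z - 1 ≤ 1 := by
      refine le_trans ?_ hT
      have := MM_mono (Nat.sqrt_le_sqrt hy)
      have := div_le_div_of_nonneg_right this (MM_pos z).le
      linarith
    have h3 := rough_le hK hpi hz h1 (by omega) h2 zero_le_one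
    have h4 : (y : ℝ) / Real.log y ≤ y / Real.log z :=
      div_le_div_of_nonneg_left (by linarith) hlz (Real.log_le_log (by linarith) (by exact_mod_cast h1))
    have h5 : K * (y / Real.log y) + 2 * K * (y / Real.log y) * 1 ≤ (3 * K / Real.log z) * y := by
      calc K * (y / Real.log y) + 2 * K * (y / Real.log y) * 1 = 3 * K * (y / Real.log y) := by ring
        _ ≤ 3 * K * (y / Real.log z) := mul_le_mul_of_nonneg_left h4 (by positivity)
        _ = _ := by ring
    linarith

end Pool.Agent.N732.GW
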