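import Mathlib
import Pool.Agent.N732.GW.Cnt

set_option autoImplicit false
set_option linter.unusedSectionVars false

/-! # Residue classes for the windows -/

open Filter Set
open scoped Topology

namespace Pool.Agent.N732.GW

open Pool.Agent.N732.GV

lemma crt (s : Finset ℕ) (hs : ∀ p ∈ s, p.Prime) (a : ℕ → ℕ) : ∃ c : ℕ, c < ∏ p ∈ s, p ∧ ∀ p ∈ s, c ≡ a p [MOD p] := by
  have hne : ∀ i ∈ s, (fun p : ℕ => p) i ≠ 0 := fun i hi => (hs i hi).ne_zero
  have hco : Set.Pairwise (↑s : Set ℕ) (Function.onFun Nat.Coprime (fun p : ℕ => p)) := by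
    intro p hp q hq hpq
    exact (Nat.coprime_primes (hs p hp) (hs q hq)).2 hpq
  exact ⟨_, Nat.chineseRemainderOfFinset_lt_prod a (fun p => p) hne hco,
    (Nat.chineseRemainderOfFinset a (fun p => p) s hne hco).2⟩

lemma choose_q {y0 d : ℕ} (hy0 : 2 ≤ y0) (hd : Even d) (hd2 : 4 ^ y0 < d) :
    ∃ q, 1 ≤ q ∧ q ≤ 4 ^ y0 ∧ ∀ p, p.Prime → p ≤ y0 → ¬ p ∣ q ∧ ¬ p ∣ (d - q) := by
  obtain ⟨c, hc1, hc2⟩ := crt (PZ y0) (fun p hp => (mem_PZ.1 hp).1) (fun p => if p ∣ d - 1 then 2 else 1)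
  have hc4 : c ≤ 4 ^ y0 := hc1.le.trans (prod_PZ_le y0)
  have hcd : c < d := by omega
  have hd1 : 1 < d := by
    have : 0 < 4 ^ y0 := by positivity
    omega
  have key : ∀ p, p.Prime → p ≤ y0 → ¬ p ∣ c ∧ ¬ p ∣ (d - c) := by
    intro p hp hpy
    have h1 := hc2 p (mem_PZ.2 ⟨hp, hpy⟩)
    have hp2 := hp.two_le
    by_cases h : p ∣ d - 1
    · simp only [if_pos h] at h1
      have hpo : p ≠ 2 := by
        rintro rfl
        obtain ⟨k, hk⟩ := hd
        obtain ⟨m, hm⟩ := h
        omega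
      constructor
      · intro h2
        have h3 : p ∣ 2 := (h1.dvd_iff (dvd_refl p)).1 h2
        have := Nat.le_of_dvd (by norm_num) h3
        omega
      · intro h2
        -- d ≡ c ≡ 2
        have h3 : c ≡ d [MOD p] := (Nat.modEq_iff_dvd' hcd.le).2 h2
        have h4 : 2 ≡ d [MOD p] := h1.symm.trans h3
        have h5 : 1 ≡ d [MOD p] := (Nat.modEq_iff_dvd' hd1.le).2 h
        have h6 : 1 ≡ 2 [MOD p] := h5.trans h4.symm
        have h7 : p ∣ 2 - 1 := (Nat.modEq_iff_dvd' (by norm_num)).1 h6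
        have := Nat.le_of_dvd (by norm_num) h7
        omega
    · simp only [if_neg h] at h1
      constructor
      · intro h2
        have h3 : p ∣ 1 := (h1.dvd_iff (dvd_refl p)).1 h2
        have := Nat.le_of_dvd (by norm_num) h3
        omega
      · intro h2
        have h3 : c ≡ d [MOD p] := (Nat.modEq_iff_dvd' hcd.le).2 h2
        have h4 : 1 ≡ d [MOD p] := h1.symm.trans h3
        exact h ((Nat.modEq_iff_dvd' hd1.le).1 h4)
  refine ⟨c, ?_, hc4, key⟩
  have h2 := (key 2 Nat.prime_two hy0).1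
  rcases Nat.eq_zero_or_pos c with h | h
  · rw [h] at h2
    exact absurd (dvd_zero 2) h2
  · exact h

lemma good_class {z d : ℕ} (hd : Even d) (B : Finset ℕ) {q : ℕ} (hqd : q < d)
    (hq : ∀ p ∈ PZ z, p ∉ B → ¬ p ∣ q ∧ ¬ p ∣ (d - q)) :
    ∃ c, c < ∏ p ∈ PZ z, p ∧ (∀ p ∈ PZ z, ¬ p ∣ c ∧ ¬ p ∣ c + d) ∧ (∀ p ∈ PZ z, p ∉ B → p ∣ c + q) := by
  classical
  obtain ⟨c, hc1, hc2⟩ := crt (PZ z) (fun p hp => (mem_PZ.1 hp).1)
    (fun p => if p ∈ B then (if p ∣ 1 + d then 2 else 1) else (p - 1) * q)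
  have hcq : ∀ p ∈ PZ z, p ∉ B → p ∣ c + q := by
    intro p hp hpB
    have h1 := hc2 p hp
    simp only [if_neg hpB] at h1
    have h2 : c + q ≡ (p - 1) * q + q [MOD p] := h1.add_right q
    have h3 : (p - 1) * q + q = p * q := by
      have := (mem_PZ.1 hp).1.one_le
      obtain ⟨k, rfl⟩ : ∃ k, p = k + 1 := ⟨p - 1, by omega⟩
      rw [Nat.add_sub_cancel]
      ring
    rw [h3] at h2
    exact (h2.dvd_iff (dvd_refl p)).2 (dvd_mul_right p q)
  refine ⟨c, hc1, ?_, hcq⟩
  intro p hp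
  have hpp := (mem_PZ.1 hp).1
  have hp2 := hpp.two_le
  by_cases hpB : p ∈ B
  · have h1 := hc2 p hp
    simp only [if_pos hpB] at h1
    by_cases h : p ∣ 1 + d
    · simp only [if_pos h] at h1
      have hpo : p ≠ 2 := by
        rintro rfl
        obtain ⟨k, hk⟩ := hd
        obtain ⟨m, hm⟩ := h
        omega
      constructor
      · intro h2
        have h3 : p ∣ 2 := (h1.dvd_iff (dvd_refl p)).1 h2
        have := Nat.le_of_dvd (by norm_num) h3
        omega
      · intro h2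
        have h3 : p ∣ 2 + d := ((h1.add_right d).dvd_iff (dvd_refl p)).1 h2
        have h4 : p ∣ (2 + d) - (1 + d) := Nat.dvd_sub h3 h
        rw [show (2 + d) - (1 + d) = 1 by omega] at h4
        have := Nat.le_of_dvd (by norm_num) h4
        omega
    · simp only [if_neg h] at h1
      constructor
      · intro h2
        have h3 : p ∣ 1 := (h1.dvd_iff (dvd_refl p)).1 h2
        have := Nat.le_of_dvd (by norm_num) h3
        omega
      · intro h2
        exact h (((h1.add_right d).dvd_iff (dvd_refl p)).1 h2)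
  · have h1 := hcq p hp hpB
    obtain ⟨h2, h3⟩ := hq p hp hpB
    constructor
    · intro h4
      exact h2 ((Nat.dvd_add_right h4).1 h1)
    · intro h4
      rw [show c + d = (c + q) + (d - q) by omega] at h4
      exact h3 ((Nat.dvd_add_right h1).1 h4)

/-- the integers of the window which can be chosen -/
def surv (z c d : ℕ) : Finset ℕ := (Finset.Icc 1 (d - 1)).filter (fun i => ∀ p ∈ PZ z, ¬ p ∣ c + i)

lemma surv_card {z d q c : ℕ} {B : Finset ℕ} (h : ∀ p ∈ PZ z, p ∉ B → p ∣ c + q) :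
    (surv z c d).card ≤ q + (roughB z B d).card := by
  classical
  have hsub : surv z c d ⊆ Finset.Icc 1 q ∪ (roughB z B d).image (q + ·) := by
    intro i hi
    unfold surv at hi
    rw [Finset.mem_filter, Finset.mem_Icc] at hi
    obtain ⟨⟨h1, h2⟩, h3⟩ := hi
    rw [Finset.mem_union]
    rcases Nat.lt_or_ge q i with h4 | h4
    · right
      rw [Finset.mem_image]
      refine ⟨i - q, ?_, by omega⟩
      unfold roughB
      rw [Finset.mem_filter, Finset.mem_Icc]
      refine ⟨⟨by omega, by omega⟩, ?_⟩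
      intro p hp hpB hpi
      refine h3 p hp ?_
      rw [show c + i = (c + q) + (i - q) by omega]
      exact (Nat.dvd_add_right (h p hp hpB)).2 hpi
    · left
      rw [Finset.mem_Icc]
      exact ⟨h1, h4⟩
  refine (Finset.card_le_card hsub).trans ((Finset.card_union_le _ _).trans ?_)
  refine add_le_add ?_ Finset.card_image_le
  rw [Nat.card_Icc]
  omega

lemma surv_le (z c d : ℕ) : (surv z c d).card ≤ d := by
  unfold surv
  refine (Finset.card_filter_le _ _).trans ?_
  rw [Nat.card_Icc]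
  omega

/-- the number of primes `> y0` dividing `n` -/
lemma card_primes_le {B : Finset ℕ} {y0 n : ℕ} (hn : 0 < n) (hB : ∀ p ∈ B, p.Prime ∧ y0 < p ∧ p ∣ n) :
    y0 ^ B.card ≤ n := by
  have h1 : ∏ p ∈ B, p ∣ n := Finset.prod_primes_dvd n (fun p hp => (hB p hp).1.prime) (fun p hp => (hB p hp).2.2)
  refine le_trans ?_ (Nat.le_of_dvd hn h1)
  rw [← Finset.prod_const]
  exact Finset.prod_le_prod' fun p hp => (hB p hp).2.1.le

end Pool.Agent.N732.GW
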