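import Mathlib
import Pool.Agent.N732.GW.Cls

set_option autoImplicit false
set_option linter.unusedSectionVars false

/-! # Residue classes for all even lengths: asymptotics -/

open Filter Set
open scoped Topology

namespace Pool.Agent.N732.GW

open Pool.Agent.N732.GV
open Pool.Agent.R528.RM (tendsto_log)

lemma conds {z g : ℕ → ℕ} (hz : Tendsto (fun j : ℕ => Real.log (z j) / Real.log j) atTop (𝓝 1))
    (hg : Tendsto (fun j : ℕ => Real.log (g j) / Real.log j) atTop (𝓝 2)) :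
    ∀ᶠ j : ℕ in atTop, 16 ≤ z j ∧ g j < z j * z j * z j ∧ MM (Nat.sqrt (g j)) / MM (z j) - 1 ≤ 1 := by
  have hz0 := tendsto_nat_of_log one_pos hz
  have hg0 := tendsto_nat_of_log (by norm_num) hg
  have hY := log_sqrt hg
  set E := Real.exp Real.eulerMascheroniConstant with hE
  have hE0 : 0 < E := Real.exp_pos _
  have hMz := MM_comp one_pos hz
  have hMY := MM_comp one_pos hY
  have hratio : Tendsto (fun j : ℕ => MM (Nat.sqrt (g j)) / MM (z j) - 1) atTop (𝓝 0) := by
    have h1 := hMY.div hMz (by rw [mul_one]; exact hE0.ne')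
    rw [div_self (by rw [mul_one]; exact hE0.ne')] at h1
    have h2 := h1.sub_const 1
    rw [sub_self] at h2
    refine h2.congr' ?_
    filter_upwards [tendsto_log.eventually_gt_atTop 0] with j hj
    have := (MM_pos (z j)).ne'
    simp only [Pi.div_apply]
    rw [div_div_div_cancel_right₀ hj.ne']
  have hz3 : ∀ᶠ j : ℕ in atTop, g j < z j * z j * z j := by
    have h1 := (hz.eventually (lt_mem_nhds (show (3 / 4 : ℝ) < 1 by norm_num))).and
      (hg.eventually (gt_mem_nhds (show (2 : ℝ) < 9 / 4 by norm_num)))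
    filter_upwards [h1, tendsto_log.eventually_gt_atTop 0, hz0.2.eventually_ge_atTop 1, hg0.2.eventually_ge_atTop 1] with j hj hj0 hz1 hg1
    rw [lt_div_iff₀ hj0, div_lt_iff₀ hj0] at hj
    have hz1' : (1 : ℝ) ≤ z j := by exact_mod_cast hz1
    have hg1' : (1 : ℝ) ≤ g j := by exact_mod_cast hg1
    have h2 : Real.log (g j) < Real.log ((z j : ℝ) ^ 3) := by
      rw [Real.log_pow]
      push_cast
      linarith [hj.1, hj.2]
    have h3 := (Real.log_lt_log_iff (by linarith) (by positivity)).1 h2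
    have h4 : (z j : ℝ) ^ 3 = ((z j * z j * z j : ℕ) : ℝ) := by push_cast; ring
    rw [h4] at h3
    exact_mod_cast h3
  filter_upwards [hz0.2.eventually_ge_atTop 16, hz3, hratio.eventually (gt_mem_nhds one_pos)] with j h1 h2 h3
  exact ⟨h1, h2, h3.le⟩

lemma y0_ge : ∀ᶠ j : ℕ in atTop, Real.log j / 4 ≤ (Nat.log 16 j : ℝ) := by
  filter_upwards [tendsto_log.eventually_ge_atTop 12] with j hj
  have hj0 : 0 < j := by
    rcases Nat.eq_zero_or_pos j with h | h
    · subst h
      simp at hj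
      linarith
    · exact h
  have h1 : j < 16 ^ (Nat.log 16 j + 1) := Nat.lt_pow_succ_log_self (by norm_num) j
  have h2 : (j : ℝ) ≤ 16 ^ (Nat.log 16 j + 1) := by exact_mod_cast h1.le
  have h3 := Real.log_le_log (by exact_mod_cast hj0) h2
  rw [Real.log_pow] at h3
  have h4 : Real.log 16 ≤ 2.8 := by
    have : (16 : ℝ) = 2 ^ 4 := by norm_num
    rw [this, Real.log_pow]
    have := Real.log_two_lt_d9
    push_cast
    linarith
  push_cast at h3
  have h5 : 0 ≤ (Nat.log 16 j : ℝ) := Nat.cast_nonneg _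
  nlinarith

lemma y0_tendsto : Tendsto (fun j : ℕ => (Nat.log 16 j : ℝ)) atTop atTop := by
  refine tendsto_atTop_mono' atTop y0_ge ?_
  exact tendsto_log.atTop_div_const (by norm_num)

lemma pow_small {C : ℝ} (hC : 0 < C) : ∀ᶠ j : ℕ in atTop,
    Real.log (j : ℝ) * √(j : ℝ) ≤ C * (j : ℝ) ^ 2 ∧ Real.log (j : ℝ) ^ 2 * Real.exp (Real.log j / 4) ≤ C * j := by
  have h1 := (isLittleO_log_rpow_rpow_atTop (2 : ℝ) (show (0 : ℝ) < 1 / 2 by norm_num)).def hC
  filter_upwards [tendsto_natCast_atTop_atTop.eventually h1, tendsto_log.eventually_ge_atTop 1, eventually_ge_atTop 1] with j h2 h3 h4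
  have hj : (1 : ℝ) ≤ j := by exact_mod_cast h4
  have hl0 : 0 ≤ Real.log (j : ℝ) := by linarith
  rw [Real.norm_of_nonneg (Real.rpow_nonneg hl0 _), Real.norm_of_nonneg (Real.rpow_nonneg (by linarith) _)] at h2
  have h5 : Real.log (j : ℝ) ^ (2 : ℝ) = Real.log j ^ 2 := by
    rw [← Real.rpow_natCast]
    norm_num
  rw [h5, ← Real.sqrt_eq_rpow] at h2
  have hs1 : 1 ≤ √(j : ℝ) := by
    rw [Real.one_le_sqrt]
    exact hj
  have hss : √(j : ℝ) * √(j : ℝ) = j := Real.mul_self_sqrt (by linarith)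
  constructor
  · have h6 : Real.log (j : ℝ) ≤ Real.log j ^ 2 := by nlinarith
    calc Real.log (j : ℝ) * √(j : ℝ) ≤ (C * √(j : ℝ)) * √(j : ℝ) := mul_le_mul_of_nonneg_right (h6.trans h2) (by linarith)
      _ = C * j := by rw [mul_assoc, hss]
      _ ≤ C * (j : ℝ) ^ 2 := mul_le_mul_of_nonneg_left (by nlinarith) hC.le
  · have h7 : Real.exp (Real.log j / 4) ≤ √(j : ℝ) := by
      rw [Real.sqrt_eq_rpow, Real.rpow_def_of_pos (by linarith)]
      apply Real.exp_le_exp.2
      linarith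
    calc Real.log (j : ℝ) ^ 2 * Real.exp (Real.log j / 4) ≤ (C * √(j : ℝ)) * √(j : ℝ) :=
          mul_le_mul h2 h7 (Real.exp_pos _).le (by positivity)
      _ = C * j := by rw [mul_assoc, hss]

/-- **suitable residue classes** -/
theorem class_exists {z : ℕ → ℕ} (hz1 : Tendsto (fun j : ℕ => Real.log (z j) / Real.log j) atTop (𝓝 1))
    {lam : ℝ} (hlam : 0 < lam) {ε : ℝ} (hε : 0 < ε) :
    ∀ᶠ j : ℕ in atTop, ∀ d, Even d → 0 < d → d ≤ gg lam j →
      ∃ c, c < ∏ p ∈ PZ (z j), p ∧ (∀ p ∈ PZ (z j), ¬ p ∣ c ∧ ¬ p ∣ c + d) ∧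
        ((surv (z j) c d).card : ℝ) ≤ (1 / 2 + ε) * (gg lam j / Real.log j) := by
  classical
  obtain ⟨K, hK, hpi⟩ := pi_bounds
  have hl2 : 0 < Real.log 2 := Real.log_pos (by norm_num)
  have hg2 := gg_sq hlam
  have hgl := gg_log hlam
  set κ : ℝ := lam * Real.log 2 ^ 2 with hκ
  have hκ0 : 0 < κ := by positivity
  set ε₁ : ℝ := min (1 / 8) (ε / (288 * K)) with hε₁
  have hε₁0 : 0 < ε₁ := lt_min (by norm_num) (by positivity)
  have hε₁8 : ε₁ ≤ 1 / 8 := min_le_left _ _
  have hε₁K : 72 * K * ε₁ ≤ ε / 4 := by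
    have h1 : ε₁ ≤ ε / (288 * K) := min_le_right _ _
    rw [le_div_iff₀ (by positivity)] at h1
    linarith
  set C₁ : ℝ := min (ε / 4 * (κ / 2)) (ε / 4 * √(κ / 2)) with hC₁
  have hC₁0 : 0 < C₁ := lt_min (by positivity) (by positivity)
  have hlog0 : Tendsto (fun j : ℕ => Real.log (Nat.log 16 j : ℝ)) atTop atTop := Real.tendsto_log_atTop.comp y0_tendsto
  filter_upwards [conds hz1 hgl, rough_asymp hz1 hgl (show 0 < ε / 4 by positivity), y0_ge, y0_tendsto.eventually_ge_atTop 4,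
    hlog0.eventually_ge_atTop (4 / ε₁), pow_small hC₁0, tendsto_log.eventually_ge_atTop 1,
    hg2.eventually (lt_mem_nhds (show κ / 2 < κ by linarith)), hgl.eventually (gt_mem_nhds (show (2 : ℝ) < 3 by norm_num)),
    hz1.eventually (lt_mem_nhds (show (1 / 2 : ℝ) < 1 by norm_num)), eventually_ge_atTop 1] with
    j h1 h2 h3 h4 h5 h6 h7 h8 h9 h10 h11
  obtain ⟨hz16, hgz3, hMM⟩ := h1
  set g := gg lam j with hg
  set ℓ := Real.log (j : ℝ) with hℓ
  set y0 := Nat.log 16 j with hy0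
  have hj : (1 : ℝ) ≤ j := by exact_mod_cast h11
  have hℓ0 : 0 < ℓ := by linarith
  have hgκ : κ / 2 * (j : ℝ) ^ 2 ≤ g := by
    rw [lt_div_iff₀ (by positivity)] at h8
    exact h8.le
  have hg0 : (0 : ℝ) < g := by
    have : 0 < κ / 2 * (j : ℝ) ^ 2 := by positivity
    linarith
  have hy4 : 4 ≤ y0 := by exact_mod_cast h4
  have hPi : (4 ^ y0) * (4 ^ y0) ≤ j := by
    rw [← mul_pow]
    norm_num
    exact Nat.pow_log_le_self 16 (by omega)
  have hPiR : ((4 ^ y0 : ℕ) : ℝ) ≤ √(j : ℝ) := by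
    apply Real.le_sqrt_of_sq_le
    rw [sq]
    exact_mod_cast hPi
  have hsj : √(j : ℝ) ≤ ε / 4 * (g / ℓ) := by
    rw [mul_div_assoc', le_div_iff₀ hℓ0]
    calc √(j : ℝ) * ℓ = ℓ * √(j : ℝ) := by ring
      _ ≤ C₁ * (j : ℝ) ^ 2 := h6.1
      _ ≤ (ε / 4 * (κ / 2)) * (j : ℝ) ^ 2 := mul_le_mul_of_nonneg_right (min_le_left _ _) (by positivity)
      _ = ε / 4 * (κ / 2 * (j : ℝ) ^ 2) := by ring
      _ ≤ ε / 4 * g := mul_le_mul_of_nonneg_left hgκ (by positivity)
  have hgl0 : 0 < (g : ℝ) / ℓ := by positivity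
  intro d hd hd0 hdg
  rcases Nat.lt_or_ge (4 ^ y0) d with hbig | hsmall
  · obtain ⟨q, hq1, hq2, hq3⟩ := choose_q (by omega) hd hbig
    set B : Finset ℕ := (PZ (z j)).filter (fun p => p ∣ q ∨ p ∣ (d - q)) with hB
    have hqd : q < d := by omega
    obtain ⟨c, hc1, hc2, hc3⟩ := good_class (z := z j) hd B hqd (by
      intro p hp hpB
      rw [hB, Finset.mem_filter] at hpB
      tauto)
    refine ⟨c, hc1, hc2, ?_⟩
    have hBp : ∀ p ∈ B, p.Prime ∧ y0 < p ∧ p ∣ q * (d - q) := by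
      intro p hp
      rw [hB, Finset.mem_filter, mem_PZ] at hp
      refine ⟨hp.1.1, ?_, ?_⟩
      · by_contra hcon
        have := hq3 p hp.1.1 (by omega)
        tauto
      · rcases hp.2 with h | h
        · exact h.mul_right _
        · exact h.mul_left _
    have hn : 0 < q * (d - q) := Nat.mul_pos (by omega) (by omega)
    have hcardB := card_primes_le hn hBp
    have hBb : (B.card : ℝ) ≤ ε₁ * ℓ := by
      have h12 : ((y0 : ℝ)) ^ B.card ≤ (j : ℝ) * g := by
        have h13 : y0 ^ B.card ≤ j * g := by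
          refine hcardB.trans (Nat.mul_le_mul ?_ (by omega))
          calc q ≤ 4 ^ y0 := hq2
            _ ≤ 4 ^ y0 * 4 ^ y0 := Nat.le_mul_of_pos_left _ (by positivity)
            _ ≤ j := hPi
        exact_mod_cast h13
      have h13 := Real.log_le_log (by positivity) h12
      rw [Real.log_pow, Real.log_mul (by positivity) hg0.ne'] at h13
      rw [div_lt_iff₀ hℓ0] at h9
      have h14 : (B.card : ℝ) * Real.log (y0 : ℝ) ≤ 4 * ℓ := by linarith
      have h15 : (B.card : ℝ) * (4 / ε₁) ≤ 4 * ℓ := (mul_le_mul_of_nonneg_left h5 (Nat.cast_nonneg _)).trans h14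
      rw [mul_div_assoc', div_le_iff₀ hε₁0] at h15
      linarith
    have hlz : ℓ / 2 ≤ Real.log (z j) := by
      rw [lt_div_iff₀ hℓ0] at h10
      linarith
    have hfine := fine (z := z j) (a := 3 * K / Real.log (z j)) (b := 1) (by
        have : 0 < Real.log (z j) := by linarith
        positivity) zero_le_one hy4 (rough_crude hK hpi hz16 hgz3 hMM) B (fun p hp => (hBp p hp).2.1.le)
    have hy0R : ℓ / 4 ≤ (y0 : ℝ) := h3
    have hy0p : (0 : ℝ) < y0 := by linarith
    have hBY : (B.card : ℝ) / y0 ≤ 4 * ε₁ := by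
      rw [div_le_iff₀ hy0p]
      nlinarith
    have h12 : (1 + 2 / (y0 : ℝ)) ^ B.card ≤ 3 := by
      calc (1 + 2 / (y0 : ℝ)) ^ B.card ≤ (Real.exp (2 / (y0 : ℝ))) ^ B.card := by
            apply pow_le_pow_left₀ (by positivity)
            have := Real.add_one_le_exp (2 / (y0 : ℝ))
            linarith
        _ = Real.exp (2 * ((B.card : ℝ) / y0)) := by
            rw [← Real.exp_nat_mul]
            congr 1
            ring
        _ ≤ Real.exp 1 := by
            apply Real.exp_le_exp.2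
            linarith
        _ ≤ 3 := by
            have := Real.exp_one_lt_d9
            linarith
    have h13 : (2 : ℝ) ^ B.card ≤ Real.exp (ℓ / 4) := by
      calc (2 : ℝ) ^ B.card = Real.exp ((B.card : ℝ) * Real.log 2) := by
            rw [Real.exp_nat_mul, Real.exp_log (by norm_num)]
        _ ≤ Real.exp (ℓ / 4) := by
            apply Real.exp_le_exp.2
            have h14 : (B.card : ℝ) * Real.log 2 ≤ (ε₁ * ℓ) * 1 :=
              mul_le_mul hBb (by linarith [Real.log_two_lt_d9]) hl2.le (by positivity)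
            nlinarith
    have hthird : (B.card : ℝ) * ((1 + 2 / (y0 : ℝ)) ^ B.card * (3 * K / Real.log (z j)) * (g / y0)) ≤ ε / 4 * (g / ℓ) := by
      have h14 : 3 * K / Real.log (z j) ≤ 6 * K / ℓ := by
        rw [div_le_div_iff₀ (by linarith) hℓ0]
        nlinarith
      calc (B.card : ℝ) * ((1 + 2 / (y0 : ℝ)) ^ B.card * (3 * K / Real.log (z j)) * (g / y0)) =
            ((B.card : ℝ) / y0) * ((1 + 2 / (y0 : ℝ)) ^ B.card * (3 * K / Real.log (z j))) * g := by ring
        _ ≤ (4 * ε₁) * (3 * (6 * K / ℓ)) * g := by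
            have h15 : 0 ≤ 3 * K / Real.log (z j) := by
              have : 0 < Real.log (z j) := by linarith
              positivity
            apply mul_le_mul_of_nonneg_right _ hg0.le
            exact mul_le_mul hBY (mul_le_mul h12 h14 h15 (by norm_num)) (by positivity) (by positivity)
        _ = 72 * K * ε₁ * (g / ℓ) := by ring
        _ ≤ _ := mul_le_mul_of_nonneg_right hε₁K hgl0.le
    have hfourth : (B.card : ℝ) * (2 ^ B.card * 1 * √(g : ℝ)) ≤ ε / 4 * (g / ℓ) := by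
      have h14 : (B.card : ℝ) ≤ ℓ := by nlinarith
      have hsg : √(κ / 2) * j ≤ √(g : ℝ) := by
        apply Real.le_sqrt_of_sq_le
        rw [mul_pow, Real.sq_sqrt (by positivity)]
        exact hgκ
      have h15 : ℓ ^ 2 * Real.exp (ℓ / 4) ≤ ε / 4 * √(g : ℝ) := by
        calc ℓ ^ 2 * Real.exp (ℓ / 4) ≤ C₁ * j := h6.2
          _ ≤ (ε / 4 * √(κ / 2)) * j := mul_le_mul_of_nonneg_right (min_le_right _ _) (by positivity)
          _ = ε / 4 * (√(κ / 2) * j) := by ring
          _ ≤ _ := mul_le_mul_of_nonneg_left hsg (by positivity)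
      have hss : √(g : ℝ) * √(g : ℝ) = g := Real.mul_self_sqrt hg0.le
      rw [mul_div_assoc', le_div_iff₀ hℓ0]
      calc (B.card : ℝ) * (2 ^ B.card * 1 * √(g : ℝ)) * ℓ ≤ ℓ * (Real.exp (ℓ / 4) * 1 * √(g : ℝ)) * ℓ := by
            apply mul_le_mul_of_nonneg_right _ hℓ0.le
            apply mul_le_mul h14 _ (by positivity) hℓ0.le
            apply mul_le_mul_of_nonneg_right _ (Real.sqrt_nonneg _)
            linarith
        _ = (ℓ ^ 2 * Real.exp (ℓ / 4)) * √(g : ℝ) := by ring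
        _ ≤ (ε / 4 * √(g : ℝ)) * √(g : ℝ) := mul_le_mul_of_nonneg_right h15 (Real.sqrt_nonneg _)
        _ = ε / 4 * g := by rw [mul_assoc, hss]
    have hs1 := surv_card (d := d) hc3
    have hs2 := Finset.card_le_card (roughB_mono (z j) B hdg)
    have hs3 : ((surv (z j) c d).card : ℝ) ≤ q + (roughB (z j) B g).card := by
      have : (surv (z j) c d).card ≤ q + (roughB (z j) B g).card := by omega
      exact_mod_cast this
    have hqR : (q : ℝ) ≤ √(j : ℝ) := le_trans (by exact_mod_cast hq2) hPiR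
    have hsum : (1 / 2 + ε) * ((g : ℝ) / ℓ) = ε / 4 * (g / ℓ) + ((1 / 2 + ε / 4) * (g / ℓ) + (ε / 4 * (g / ℓ) + ε / 4 * (g / ℓ))) := by ring
    rw [hsum]
    have e1 : (B.card : ℝ) * ((1 + 2 / (y0 : ℝ)) ^ B.card * (3 * K / Real.log (z j)) * (g / y0) + 2 ^ B.card * 1 * √(g : ℝ)) =
      (B.card : ℝ) * ((1 + 2 / (y0 : ℝ)) ^ B.card * (3 * K / Real.log (z j)) * (g / y0)) + (B.card : ℝ) * (2 ^ B.card * 1 * √(g : ℝ)) := by ring
    rw [e1] at hfine
    linarith
  · obtain ⟨c, hc1, hc2, hc3⟩ := good_class (z := z j) hd (PZ (z j)) (q := 0) hd0 (by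
      intro p hp hpB
      exact absurd hp hpB)
    refine ⟨c, hc1, hc2, ?_⟩
    have h12 : ((surv (z j) c d).card : ℝ) ≤ √(j : ℝ) := by
      refine le_trans ?_ hPiR
      exact_mod_cast (surv_le _ _ _).trans hsmall
    have h13 : ε / 4 * ((g : ℝ) / ℓ) ≤ (1 / 2 + ε) * (g / ℓ) := mul_le_mul_of_nonneg_right (by linarith) hgl0.le
    linarith

end Pool.Agent.N732.GW
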