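import Mathlib
import Pool.Agent.N732.GW.Par
import Pool.Agent.N732.GV.Fin

set_option autoImplicit false
set_option linter.unusedSectionVars false

/-! # Gaps of prescribed even lengths in models with a growing sieve -/

open MeasureTheory Filter Set
open scoped ENNReal Topology

namespace Pool.Agent.N732.GW

open Pool.Agent.R528.RM Pool.Agent.N732.GV

variable {Ω : Type} {m0 : MeasurableSpace Ω} {μ : Measure Ω} [IsProbabilityMeasure μ]
  {ℱ : Filtration ℕ m0} {A : ℕ → Set Ω}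

/-- the violations of the lower bound `l` -/
def VL (μ : Measure Ω) (ℱ : Filtration ℕ m0) (A : ℕ → Set Ω) (l : ℕ → ℝ) (n : ℕ) : Set Ω := {ω | dens μ ℱ A n ω < l n}

lemma VL_meas (l : ℕ → ℝ) (n : ℕ) : MeasurableSet[ℱ n] (VL μ ℱ A l n) := by
  have h1 : Measurable[ℱ n] (dens μ ℱ A n) := (dens_meas n).measurable
  exact h1 measurableSet_Iio

lemma one_lower (hA : ∀ n, MeasurableSet[ℱ n] (A n)) {l : ℕ → ℝ} (hl1 : ∀ n, l n ≤ 1) (n : ℕ)
    {C : Set Ω} (hC : MeasurableSet[ℱ n] C) :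
    l n * μ.real C ≤ μ.real (C ∩ (A (n + 1) ∪ VL μ ℱ A l n)) := by
  have hV : MeasurableSet[ℱ n] (VL μ ℱ A l n) := VL_meas l n
  have hV0 : MeasurableSet (VL μ ℱ A l n) := ℱ.le _ _ hV
  have h1 := lower_meas (μ := μ) hA n (B := C \ VL μ ℱ A l n) (hC.diff hV) (l := l n) (fun ω hω => not_lt.1 hω.2)
  have h2 := measureReal_inter_add_sdiff (μ := μ) (s := C) hV0
  have h3 := measureReal_inter_add_sdiff (μ := μ) (s := C ∩ (A (n + 1) ∪ VL μ ℱ A l n)) hV0
  have e1 : C ∩ (A (n + 1) ∪ VL μ ℱ A l n) ∩ VL μ ℱ A l n = C ∩ VL μ ℱ A l n := by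
    ext ω
    simp only [mem_inter_iff, mem_union]
    tauto
  have e2 : (C ∩ (A (n + 1) ∪ VL μ ℱ A l n)) \ VL μ ℱ A l n = (C \ VL μ ℱ A l n) ∩ A (n + 1) := by
    ext ω
    simp only [mem_inter_iff, mem_union, Set.mem_sdiff]
    tauto
  rw [e1, e2] at h3
  have h4 : 0 ≤ μ.real (C ∩ VL μ ℱ A l n) := measureReal_nonneg
  have h5 : l n * μ.real (C ∩ VL μ ℱ A l n) ≤ μ.real (C ∩ VL μ ℱ A l n) := by
    have := mul_le_mul_of_nonneg_right (hl1 n) h4
    linarith
  have h6 : l n * μ.real C = l n * μ.real (C ∩ VL μ ℱ A l n) + l n * μ.real (C \ VL μ ℱ A l n) := by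
    rw [← h2]
    ring
  linarith

/-- the gap event (with violations) -/
def GE (μ : Measure Ω) (ℱ : Filtration ℕ m0) (A : ℕ → Set Ω) (l u : ℕ → ℝ) (s d : ℕ) : Set Ω :=
  ((A (s + 1) ∪ VL μ ℱ A l s) ∩ (Emp A (s + 1) d ∪ WV (VU μ ℱ A u) (s + 1) d)) ∩ (A (s + 1 + d + 1) ∪ VL μ ℱ A l (s + 1 + d))

lemma GE_meas (hA : ∀ n, MeasurableSet[ℱ n] (A n)) (l u : ℕ → ℝ) (s d : ℕ) :
    MeasurableSet[ℱ (s + 1 + d + 1)] (GE μ ℱ A l u s d) := by
  unfold GE
  refine MeasurableSet.inter (MeasurableSet.inter (MeasurableSet.union ?_ ?_) (MeasurableSet.union ?_ ?_)) (MeasurableSet.union ?_ ?_)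
  · exact ℱ.mono (by omega) _ (hA (s + 1))
  · exact ℱ.mono (by omega) _ (VL_meas l s)
  · exact ℱ.mono (by omega) _ (Emp_meas hA (s + 1) d)
  · exact ℱ.mono (by omega) _ (WV_meas (fun n => VU_meas u n) (s + 1) d)
  · exact hA _
  · exact ℱ.mono (by omega) _ (VL_meas l _)

lemma gap_lower (hA : ∀ n, MeasurableSet[ℱ n] (A n)) {l u : ℕ → ℝ} (hl0 : ∀ n, 0 ≤ l n) (hl1 : ∀ n, l n ≤ 1)
    (hu0 : ∀ n, 0 ≤ u n) (hu1 : ∀ n, u n ≤ 1) (s d : ℕ) {C : Set Ω} (hC : MeasurableSet[ℱ s] C) :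
    (l (s + 1 + d) * (∏ i ∈ Finset.range d, (1 - u (s + 1 + i))) * l s) * μ.real C ≤ μ.real (C ∩ GE μ ℱ A l u s d) := by
  have h1 := one_lower (μ := μ) hA hl1 s hC
  have hC1 : MeasurableSet[ℱ (s + 1)] (C ∩ (A (s + 1) ∪ VL μ ℱ A l s)) :=
    (ℱ.mono (by omega) _ hC).inter ((hA _).union (ℱ.mono (by omega) _ (VL_meas l s)))
  have h2 := empty_lower (μ := μ) hA hu0 hu1 (s + 1) hC1 d
  have hC2 : MeasurableSet[ℱ (s + 1 + d)] (C ∩ (A (s + 1) ∪ VL μ ℱ A l s) ∩ (Emp A (s + 1) d ∪ WV (VU μ ℱ A u) (s + 1) d)) :=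
    (ℱ.mono (by omega) _ hC1).inter ((Emp_meas hA _ _).union (WV_meas (fun n => VU_meas u n) _ _))
  have h3 := one_lower (μ := μ) hA hl1 (s + 1 + d) hC2
  have e : C ∩ GE μ ℱ A l u s d = C ∩ (A (s + 1) ∪ VL μ ℱ A l s) ∩ (Emp A (s + 1) d ∪ WV (VU μ ℱ A u) (s + 1) d) ∩
      (A (s + 1 + d + 1) ∪ VL μ ℱ A l (s + 1 + d)) := by
    unfold GE
    ext ω
    simp only [mem_inter_iff]
    tauto
  rw [e]
  refine le_trans ?_ h3
  have hp0 : 0 ≤ ∏ i ∈ Finset.range d, (1 - u (s + 1 + i)) := Finset.prod_nonneg fun i _ => by linarith [hu1 (s + 1 + i)]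
  calc (l (s + 1 + d) * (∏ i ∈ Finset.range d, (1 - u (s + 1 + i))) * l s) * μ.real C =
        l (s + 1 + d) * ((∏ i ∈ Finset.range d, (1 - u (s + 1 + i))) * (l s * μ.real C)) := by ring
    _ ≤ l (s + 1 + d) * ((∏ i ∈ Finset.range d, (1 - u (s + 1 + i))) * μ.real (C ∩ (A (s + 1) ∪ VL μ ℱ A l s))) :=
        mul_le_mul_of_nonneg_left (mul_le_mul_of_nonneg_left h1 hp0) (hl0 _)
    _ ≤ _ := mul_le_mul_of_nonneg_left h2 (hl0 _)

/-- the product over a window whose beginning is in a given residue class -/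
lemma win_prod2 (z : ℕ → ℕ) (δ : ℝ) {j t d c : ℕ} (ht : 2 ^ j ≤ t) (htg : t + d < 2 ^ (j + 1))
    (hmod : ∀ p ∈ PZ (z j), t ≡ c [MOD p]) :
    ∏ i ∈ Finset.range d, (1 - uu z δ (t + i)) =
      (1 - min 1 ((1 + δ) * MM (z j) / (j * Real.log 2))) ^ (surv (z j) c (d + 1)).card := by
  have hlog : ∀ i ∈ Finset.range d, Nat.log 2 (t + i + 1) = j := by
    intro i hi
    have := Finset.mem_range.1 hi
    rw [Nat.log_eq_iff (Or.inr ⟨by norm_num, by omega⟩)]
    omega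
  have h1 : ∏ i ∈ Finset.range d, (1 - uu z δ (t + i)) =
      ∏ i ∈ Finset.range d, (if (∀ p ∈ PZ (z j), ¬ p ∣ c + (i + 1)) then (1 - min 1 ((1 + δ) * MM (z j) / (j * Real.log 2))) else 1) := by
    refine Finset.prod_congr rfl fun i hi => ?_
    unfold uu
    rw [hlog i hi]
    have h2 : (∀ p ∈ PZ (z j), ¬ p ∣ t + i + 1) ↔ (∀ p ∈ PZ (z j), ¬ p ∣ c + (i + 1)) := by
      refine forall₂_congr fun p hp => ?_
      rw [add_assoc, ((hmod p hp).add_right (i + 1)).dvd_iff (dvd_refl p)]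
    by_cases h3 : ∀ p ∈ PZ (z j), ¬ p ∣ c + (i + 1)
    · rw [if_pos (h2.2 h3), if_pos h3]
    · rw [if_neg (fun h => h3 (h2.1 h)), if_neg h3, sub_zero]
  rw [h1, ← Finset.prod_filter, Finset.prod_const]
  congr 1
  unfold surv
  refine Finset.card_bij (fun i _ => i + 1) ?_ ?_ ?_
  · intro i hi
    rw [Finset.mem_filter, Finset.mem_range] at hi
    rw [Finset.mem_filter, Finset.mem_Icc]
    exact ⟨by omega, hi.2⟩
  · intro a _ b _ h
    omega
  · intro r hr
    rw [Finset.mem_filter, Finset.mem_Icc] at hr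
    refine ⟨r - 1, ?_, by omega⟩
    rw [Finset.mem_filter, Finset.mem_range, show r - 1 + 1 = r by omega]
    exact ⟨by omega, hr.2⟩

/-- the lower bounds -/
noncomputable def ll (n : ℕ) : ℝ := 1 / (2 * ((Nat.log 2 (n + 1) : ℝ) + 1))

lemma ll_01 (n : ℕ) : 0 ≤ ll n ∧ ll n ≤ 1 := by
  unfold ll
  have h : (0 : ℝ) ≤ (Nat.log 2 (n + 1) : ℝ) := Nat.cast_nonneg _
  refine ⟨by positivity, ?_⟩
  rw [div_le_one (by positivity)]
  linarith

/-- choice of the parameters -/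
lemma params2 (z : ℕ → ℕ) (hz0 : Tendsto (fun j : ℕ => (z j : ℝ) / j) atTop (𝓝 0))
    (hz1 : Tendsto (fun j : ℕ => Real.log (z j) / Real.log j) atTop (𝓝 1)) {lam : ℝ} (hlam : 0 < lam)
    (hlam2 : lam * Real.exp Real.eulerMascheroniConstant < 2) :
    ∃ δ η θ : ℝ, 0 < δ ∧ δ ≤ 1 / 2 ∧ 0 < η ∧ η < 1 / 2 ∧ θ + 2 * η = 1 ∧ ∀ᶠ j : ℕ in atTop,
      (∀ N : ℕ, (N : ℝ) ≤ (1 / 2 + δ) * (gg lam j / Real.log j) →
        Real.exp (-(θ * (j * Real.log 2))) ≤ (1 / (2 * ((j : ℝ) + 1))) ^ 2 * (1 - min 1 ((1 + δ) * MM (z j) / (j * Real.log 2))) ^ N) ∧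
      (((∏ p ∈ PZ (z j), p) * (gg lam j + 1) : ℕ) : ℝ) ≤ Real.exp (η * (j * Real.log 2)) ∧
      (gg lam j : ℝ) + 1 ≤ Real.exp (η / 2 * (j * Real.log 2)) := by
  have hl2 : 0 < Real.log 2 := Real.log_pos (by norm_num)
  set E := Real.exp Real.eulerMascheroniConstant with hE
  have hE0 : 0 < E := Real.exp_pos _
  set a : ℝ := lam * E / 2 with ha
  have ha0 : 0 < a := by positivity
  have ha1 : a < 1 := by linarith
  set δ : ℝ := min (1 / 2) ((1 - a) / (10 * a)) with hδ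
  have hδ0 : 0 < δ := lt_min (by norm_num) (div_pos (by linarith) (by positivity))
  have hδ1 : δ ≤ 1 / 2 := min_le_left _ _
  have hδa : a * (5 * δ) ≤ (1 - a) / 2 := by
    have h1 : δ ≤ (1 - a) / (10 * a) := min_le_right _ _
    rw [le_div_iff₀ (by positivity)] at h1
    linarith
  set θ₀ : ℝ := (5 + 3 * a) / 8 with hθ₀
  set θ : ℝ := (3 + a) / 4 with hθ
  set η : ℝ := (1 - θ) / 2 with hη
  have hη0 : 0 < η := by rw [hη, hθ]; linarith
  refine ⟨δ, η, θ, hδ0, hδ1, hη0, by rw [hη, hθ]; linarith, by rw [hη]; ring, ?_⟩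
  have hg2 := gg_sq hlam
  have hgl := gg_log hlam
  have hMz := MM_comp one_pos hz1
  rw [mul_one, ← hE] at hMz
  have hlj : Tendsto (fun j : ℕ => Real.log j / (j : ℝ)) atTop (𝓝 0) := by
    have := Real.isLittleO_log_id_atTop.tendsto_div_nhds_zero
    exact this.comp tendsto_natCast_atTop_atTop
  set u : ℕ → ℝ := fun j => (1 + δ) * MM (z j) / (j * Real.log 2) with hu
  have hu_lim : Tendsto u atTop (𝓝 0) := by
    have h1 := (hMz.mul hlj).const_mul ((1 + δ) / Real.log 2)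
    rw [mul_zero, mul_zero] at h1
    refine h1.congr' ?_
    filter_upwards [tendsto_log.eventually_gt_atTop 0, eventually_gt_atTop 0] with j hj hj2
    have : (0 : ℝ) < j := by exact_mod_cast hj2
    simp only [hu]
    field_simp
  have hF : Tendsto (fun j : ℕ => (1 / 2 + δ) * ((gg lam j : ℝ) / (j : ℝ) ^ 2) * ((1 + δ) * (MM (z j) / Real.log j)) / Real.log 2 ^ 2 / (1 - u j))
      atTop (𝓝 ((1 / 2 + δ) * (lam * Real.log 2 ^ 2) * ((1 + δ) * E) / Real.log 2 ^ 2 / (1 - 0))) := by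
    refine Tendsto.div ?_ (tendsto_const_nhds.sub hu_lim) (by norm_num)
    exact ((hg2.const_mul _).mul (hMz.const_mul _)).div_const _
  have hFlim : (1 / 2 + δ) * (lam * Real.log 2 ^ 2) * ((1 + δ) * E) / Real.log 2 ^ 2 / (1 - 0) < θ₀ := by
    have e1 : (1 / 2 + δ) * (lam * Real.log 2 ^ 2) * ((1 + δ) * E) / Real.log 2 ^ 2 / (1 - 0) = a * ((1 + 2 * δ) * (1 + δ)) := by
      rw [ha]
      field_simp
      ring
    rw [e1]
    have h2 : (1 + 2 * δ) * (1 + δ) ≤ 1 + 5 * δ := by nlinarith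
    have h3 := mul_le_mul_of_nonneg_left h2 ha0.le
    rw [hθ₀]
    linarith
  have hM : Tendsto (fun j : ℕ => ((z j : ℝ) / j) * Real.log 4 + 2 * ((Real.log (gg lam j) / Real.log j) * (Real.log j / (j : ℝ)))) atTop
      (𝓝 (0 * Real.log 4 + 2 * (2 * 0))) := (hz0.mul_const _).add ((hgl.mul hlj).const_mul 2)
  rw [zero_mul, mul_zero, mul_zero, add_zero] at hM
  have hgj : Tendsto (fun j : ℕ => 2 * ((Real.log (gg lam j) / Real.log j) * (Real.log j / (j : ℝ)))) atTop (𝓝 (2 * (2 * 0))) :=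
    (hgl.mul hlj).const_mul 2
  rw [mul_zero, mul_zero] at hgj
  have hgt := gg_tendsto hlam
  filter_upwards [hF.eventually (gt_mem_nhds hFlim), hM.eventually (gt_mem_nhds (show (0 : ℝ) < η * Real.log 2 by positivity)),
    hu_lim.eventually (gt_mem_nhds one_pos), hgj.eventually (gt_mem_nhds (show (0 : ℝ) < η / 2 * Real.log 2 by positivity)),
    tendsto_log.eventually_gt_atTop 0, eventually_gt_atTop 0, hgt.eventually_ge_atTop 2,
    hlj.eventually (gt_mem_nhds (show (0 : ℝ) < (1 - a) / 64 * Real.log 2 by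
      have : 0 < 1 - a := by linarith
      positivity)), eventually_ge_atTop 4] with
    j h1 h2 h3 h4 h5 h6 h7 h8 h9
  have hj0 : (0 : ℝ) < j := by exact_mod_cast h6
  have hMp := MM_pos (z j)
  have hu0 : 0 ≤ u j := by
    simp only [hu]
    positivity
  have hg2' : (2 : ℝ) ≤ gg lam j := by exact_mod_cast h7
  have hg0 : (0 : ℝ) < gg lam j := by linarith
  have hlg1 : Real.log ((gg lam j : ℝ) + 1) ≤ 2 * Real.log (gg lam j) := by
    have h10 : (gg lam j : ℝ) + 1 ≤ (gg lam j : ℝ) ^ 2 := by nlinarith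
    have h11 := Real.log_le_log (by linarith) h10
    rw [Real.log_pow] at h11
    push_cast at h11
    exact h11
  refine ⟨?_, ?_, ?_⟩
  · intro N hN
    have e1 : min 1 ((1 + δ) * MM (z j) / (j * Real.log 2)) = u j := min_eq_right h3.le
    rw [e1]
    have h7' : 0 ≤ u j / (1 - u j) := div_nonneg hu0 (by linarith)
    have h8' : (N : ℝ) * (u j / (1 - u j)) ≤ θ₀ * (j * Real.log 2) := by
      calc (N : ℝ) * (u j / (1 - u j)) ≤ ((1 / 2 + δ) * (gg lam j / Real.log j)) * (u j / (1 - u j)) :=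
            mul_le_mul_of_nonneg_right hN h7'
        _ = ((1 / 2 + δ) * ((gg lam j : ℝ) / (j : ℝ) ^ 2) * ((1 + δ) * (MM (z j) / Real.log j)) / Real.log 2 ^ 2 / (1 - u j)) * (j * Real.log 2) := by
            have e2 : u j = (1 + δ) * MM (z j) / (j * Real.log 2) := rfl
            have h8 : 1 - u j ≠ 0 := by linarith
            have e3 : (1 / 2 + δ) * ((gg lam j : ℝ) / Real.log j) * (u j / (1 - u j)) =
              ((1 / 2 + δ) * ((gg lam j : ℝ) / Real.log j) * u j) / (1 - u j) := by ring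
            have e4 : ((1 / 2 + δ) * ((gg lam j : ℝ) / (j : ℝ) ^ 2) * ((1 + δ) * (MM (z j) / Real.log j)) / Real.log 2 ^ 2 / (1 - u j)) * (j * Real.log 2) =
              ((1 / 2 + δ) * ((gg lam j : ℝ) / (j : ℝ) ^ 2) * ((1 + δ) * (MM (z j) / Real.log j)) / Real.log 2 ^ 2 * (j * Real.log 2)) / (1 - u j) := by ring
            rw [e3, e4]
            congr 1
            rw [e2]
            field_simp
        _ ≤ θ₀ * (j * Real.log 2) := mul_le_mul_of_nonneg_right h1.le (by positivity)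
    have h10 : Real.exp (-(θ₀ * (j * Real.log 2))) ≤ (1 - u j) ^ N :=
      (Real.exp_le_exp.2 (neg_le_neg h8')).trans (pow_ge h3 N)
    have h11 : Real.exp (-((θ - θ₀) * (j * Real.log 2))) ≤ (1 / (2 * ((j : ℝ) + 1))) ^ 2 := by
      have h12 : (2 * ((j : ℝ) + 1)) ^ 2 ≤ Real.exp ((θ - θ₀) * (j * Real.log 2)) := by
        rw [← Real.log_le_iff_le_exp (by positivity), Real.log_pow]
        have h13 : 2 * ((j : ℝ) + 1) ≤ (j : ℝ) ^ 2 := by
          have : (4 : ℝ) ≤ j := by exact_mod_cast h9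
          nlinarith
        have h14 := Real.log_le_log (by positivity) h13
        rw [Real.log_pow] at h14
        rw [div_lt_iff₀ hj0] at h8
        have e5 : θ - θ₀ = (1 - a) / 8 := by rw [hθ, hθ₀]; ring
        rw [e5]
        push_cast at h14 ⊢
        have h15 : 0 < (1 - a) * Real.log 2 * j := by
          have : 0 < 1 - a := by linarith
          positivity
        nlinarith
      rw [Real.exp_neg, div_pow, one_pow, ← one_div]
      exact one_div_le_one_div_of_le (by positivity) h12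
    calc Real.exp (-(θ * (j * Real.log 2))) = Real.exp (-((θ - θ₀) * (j * Real.log 2))) * Real.exp (-(θ₀ * (j * Real.log 2))) := by
          rw [← Real.exp_add]; congr 1; ring
      _ ≤ _ := mul_le_mul h11 h10 (Real.exp_pos _).le (by positivity)
  · have hp0 : (0 : ℝ) < ((∏ p ∈ PZ (z j), p : ℕ) : ℝ) := by exact_mod_cast prod_PZ_pos (z j)
    rw [← Real.log_le_iff_le_exp (by exact_mod_cast Nat.mul_pos (prod_PZ_pos (z j)) (Nat.succ_pos _)), Nat.cast_mul, Nat.cast_add, Nat.cast_one,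
      Real.log_mul hp0.ne' (by positivity)]
    have h7 : Real.log ((∏ p ∈ PZ (z j), p : ℕ) : ℝ) ≤ z j * Real.log 4 := by
      rw [← Real.log_pow]
      apply Real.log_le_log hp0
      exact_mod_cast prod_PZ_le (z j)
    have e1 : ((z j : ℝ) / j * Real.log 4 + 2 * (Real.log (gg lam j) / Real.log j * (Real.log j / j))) * j =
        z j * Real.log 4 + 2 * Real.log (gg lam j) := by
      field_simp
    have h8 := mul_lt_mul_of_pos_right h2 hj0
    rw [e1] at h8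
    linarith
  · rw [← Real.log_le_iff_le_exp (by positivity)]
    have e1 : (2 * (Real.log (gg lam j) / Real.log j * (Real.log j / j))) * j = 2 * Real.log (gg lam j) := by
      field_simp
    have h8 := mul_lt_mul_of_pos_right h4 hj0
    rw [e1] at h8
    linarith

end Pool.Agent.N732.GW
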