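import Mathlib
import Pool.Agent.N732.GW.Tri

set_option autoImplicit false
set_option linter.unusedSectionVars false

/-! # All even lengths up to `2 e^(-γ) (log x)^2` are gaps in models with a growing sieve -/

open MeasureTheory Filter Set
open scoped ENNReal Topology

namespace Pool.Agent.N732.GW

open Pool.Agent.R528.RM Pool.Agent.N732.GV

variable {Ω : Type} {m0 : MeasurableSpace Ω} {μ : Measure Ω} [IsProbabilityMeasure μ]
  {ℱ : Filtration ℕ m0} {A : ℕ → Set Ω}

/-- **all even gaps** -/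
theorem all_gaps (hA : ∀ n, MeasurableSet[ℱ n] (A n)) (z : ℕ → ℕ) (hz0 : Tendsto (fun j : ℕ => (z j : ℝ) / j) atTop (𝓝 0))
    (hz1 : Tendsto (fun j : ℕ => Real.log (z j) / Real.log j) atTop (𝓝 1))
    (hzero : ∀ᵐ ω ∂μ, ∀ n, ¬ (∀ p ∈ PZ (z (Nat.log 2 (n + 1))), ¬ p ∣ n + 1) → dens μ ℱ A n ω = 0)
    (hd : ∀ᵐ ω ∂μ, ∀ ε : ℝ, 0 < ε → ∀ᶠ n : ℕ in atTop, (∀ p ∈ PZ (z (Nat.log 2 (n + 1))), ¬ p ∣ n + 1) →
      dens μ ℱ A n ω * Real.log ((n : ℝ) + 1) ≤ (1 + ε) * MM (z (Nat.log 2 (n + 1))) ∧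
      (1 - ε) * MM (z (Nat.log 2 (n + 1))) ≤ dens μ ℱ A n ω * Real.log ((n : ℝ) + 1))
    {lam : ℝ} (hlam : 0 < lam) (hlam2 : lam * Real.exp Real.eulerMascheroniConstant < 2) :
    ∀ᵐ ω ∂μ, ∀ᶠ j : ℕ in atTop, ∀ d, Even d → 0 < d → d ≤ gg lam j →
      ∃ t, 2 ^ j ≤ t ∧ t + d < 2 ^ (j + 1) ∧ ω ∈ A t ∧ ω ∈ A (t + d) ∧ ∀ r, t < r → r < t + d → ω ∉ A r := by
  classical
  have hl2 : 0 < Real.log 2 := Real.log_pos (by norm_num)
  obtain ⟨δ, η, θ, hδ, hδ2, hη, hη2, hθη, hpar⟩ := params2 z hz0 hz1 hlam hlam2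
  have hcl := class_exists hz1 hlam hδ
  set W : ℕ → ℕ := fun j => ∏ p ∈ PZ (z j), p with hW
  set M : ℕ → ℕ := fun j => W j * (gg lam j + 1) with hM
  have hWpos : ∀ j, 0 < W j := fun j => prod_PZ_pos _
  have hMpos : ∀ j, 0 < M j := fun j => Nat.mul_pos (hWpos j) (by omega)
  have hgM : ∀ j, gg lam j + 1 ≤ M j := fun j => Nat.le_mul_of_pos_left _ (hWpos j)
  have hWM : ∀ j, W j ≤ M j := fun j => Nat.le_mul_of_pos_right _ (by omega)
  set Q : ℕ → ℕ → ℕ → Prop := fun j d c => c < W j ∧ (∀ p ∈ PZ (z j), ¬ p ∣ c ∧ ¬ p ∣ c + d) ∧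
        ((surv (z j) c d).card : ℝ) ≤ (1 / 2 + δ) * (gg lam j / Real.log j) with hQ
  set cc : ℕ → ℕ → ℕ := fun j d => if h : ∃ c, Q j d c then Classical.choose h else 0 with hcc
  have hccQ : ∀ j d, (∃ c, Q j d c) → Q j d (cc j d) := by
    intro j d h
    simp only [hcc, dif_pos h]
    exact Classical.choose_spec h
  have hccW : ∀ j d, cc j d < W j := by
    intro j d
    by_cases h : ∃ c, Q j d c
    · exact (hccQ j d h).1
    · simp only [hcc, dif_neg h]
      exact hWpos j
  set q : ℕ → ℕ := fun j => 2 ^ j / M j with hq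
  set nn : ℕ → ℕ := fun j => q j - 3 with hnn
  set tt : ℕ → ℕ → ℕ → ℕ := fun j d k => (q j + 1 + k) * M j + cc j d with htt
  set s : ℕ → ℕ → ℕ → ℕ := fun j d k => tt j d k - 1 with hs
  have htt1 : ∀ j d k, 1 ≤ tt j d k := by
    intro j d k
    have h1 : 0 < (q j + 1 + k) * M j := Nat.mul_pos (by omega) (hMpos j)
    simp only [htt]
    omega
  have httsucc : ∀ j d k, tt j d (k + 1) = tt j d k + M j := by
    intro j d k
    simp only [htt]
    ring
  set D : ℕ → ℕ → ℕ → Set Ω := fun j d k => if 0 < d ∧ d ≤ gg lam j then GE μ ℱ A ll (uu z δ) (s j d k) (d - 1) else ∅ with hD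
  have hsmono : ∀ j d, Monotone (s j d) := by
    intro j d
    refine monotone_nat_of_le_succ fun k => ?_
    have := httsucc j d k
    simp only [hs]
    omega
  have hDm : ∀ j d k, MeasurableSet[ℱ (s j d (k + 1))] (D j d k) := by
    intro j d k
    simp only [hD]
    split_ifs with h
    · refine ℱ.mono ?_ _ (GE_meas hA ll (uu z δ) (s j d k) (d - 1))
      have h1 := httsucc j d k
      have h2 := hgM j
      have h3 := htt1 j d k
      simp only [hs]
      omega
    · exact @MeasurableSet.empty _ (ℱ (s j d (k + 1)))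
  have ht1 : ∀ j d k, 2 ^ j ≤ tt j d k := by
    intro j d k
    simp only [htt, hq]
    have h1 : 2 ^ j < (2 ^ j / M j + 1) * M j := by
      have := Nat.lt_mul_div_succ (2 ^ j) (hMpos j)
      rw [mul_comm] at this
      exact this
    have h2 : (2 ^ j / M j + 1) * M j ≤ (2 ^ j / M j + 1 + k) * M j := Nat.mul_le_mul_right _ (by omega)
    omega
  have ht2 : ∀ j d k, k < nn j → d ≤ gg lam j → tt j d k + d < 2 ^ (j + 1) := by
    intro j d k hk hdg
    simp only [hnn] at hk
    have h1 : (q j + 1 + k) * M j + M j * 3 ≤ 2 * (q j * M j) := by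
      have h3 : q j + 1 + k + 3 ≤ 2 * q j := by omega
      have h4 := Nat.mul_le_mul_right (M j) h3
      nlinarith
    have h2 : q j * M j ≤ 2 ^ j := Nat.div_mul_le_self _ _
    have h3 := hgM j
    have h4 := hMpos j
    have h5 := hccW j d
    have h6 := hWM j
    simp only [htt]
    rw [pow_succ]
    omega
  have httmod : ∀ j d k, ∀ p ∈ PZ (z j), tt j d k ≡ cc j d [MOD p] := by
    intro j d k p hp
    have h1 : p ∣ (q j + 1 + k) * M j :=
      Dvd.dvd.mul_left (Dvd.dvd.mul_right (Finset.dvd_prod_of_mem _ hp) _) _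
    have h2 : (q j + 1 + k) * M j ≡ 0 [MOD p] := (Nat.modEq_zero_iff_dvd).2 h1
    have h3 := h2.add_right (cc j d)
    rw [zero_add] at h3
    exact h3
  set Bad : ℕ → ℕ → Set Ω := fun j d => if Even d then {ω | ∀ k, k < nn j → ω ∉ D j d k} else ∅ with hBad
  have hbc : ∀ᵐ ω ∂μ, ∀ᶠ j : ℕ in atTop, ω ∉ ⋃ d ∈ Finset.Icc 1 (gg lam j), Bad j d := by
    have hsum : Summable (fun j : ℕ => 2 * (Real.exp (-(η / 2 * Real.log 2))) ^ j) := by
      apply Summable.mul_left
      apply summable_geometric_of_lt_one (Real.exp_pos _).le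
      rw [Real.exp_lt_one_iff]
      have : 0 < η / 2 * Real.log 2 := by positivity
      linarith
    refine bc_real hsum ?_
    have hlarge : ∀ᶠ j : ℕ in atTop, 8 ≤ Real.exp ((1 - η) * (j * Real.log 2)) := by
      have h1 : Tendsto (fun j : ℕ => (1 - η) * ((j : ℝ) * Real.log 2)) atTop atTop :=
        (tendsto_natCast_atTop_atTop.atTop_mul_const hl2).const_mul_atTop (by linarith)
      exact (Real.tendsto_exp_atTop.comp h1).eventually_ge_atTop 8
    filter_upwards [hpar, hlarge, hcl] with j hj hj6 hclj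
    set b : ℝ := j * Real.log 2 with hb
    have hMR : (0 : ℝ) < M j := by exact_mod_cast hMpos j
    have h2j : (2 : ℝ) ^ j = Real.exp b := by
      rw [hb, Real.exp_nat_mul, Real.exp_log (by norm_num)]
    have h3 : Real.exp ((1 - η) * b) ≤ (2 : ℝ) ^ j / M j := by
      rw [le_div_iff₀ hMR, h2j]
      calc Real.exp ((1 - η) * b) * M j ≤ Real.exp ((1 - η) * b) * Real.exp (η * b) :=
            mul_le_mul_of_nonneg_left hj.2.1 (Real.exp_pos _).le
        _ = Real.exp b := by rw [← Real.exp_add]; congr 1; ring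
    have h4 : (2 : ℝ) ^ j / M j - 1 ≤ q j := by
      have h5 : 2 ^ j < (q j + 1) * M j := by
        have := Nat.lt_mul_div_succ (2 ^ j) (hMpos j)
        rw [mul_comm] at this
        exact this
      have h6 : (2 : ℝ) ^ j < ((q j : ℝ) + 1) * M j := by exact_mod_cast h5
      have h7 : (2 : ℝ) ^ j / M j < (q j : ℝ) + 1 := by rwa [div_lt_iff₀ hMR]
      linarith
    have h5 : (q j : ℝ) - 3 ≤ nn j := by
      simp only [hnn]
      have : q j ≤ (q j - 3) + 3 := by omega
      have h6 : (q j : ℝ) ≤ ((q j - 3 : ℕ) : ℝ) + 3 := by exact_mod_cast this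
      linarith
    have h6 : Real.exp ((1 - η) * b) / 2 ≤ nn j := by linarith
    have h7 : Real.exp (η * b) / 2 ≤ nn j * Real.exp (-(θ * b)) := by
      calc Real.exp (η * b) / 2 = Real.exp ((1 - η) * b) / 2 * Real.exp (-(θ * b)) := by
            rw [div_mul_eq_mul_div, ← Real.exp_add]
            congr 2
            have : θ = 1 - 2 * η := by linarith
            rw [this]
            ring
        _ ≤ _ := mul_le_mul_of_nonneg_right h6 (Real.exp_pos _).le
    have h8 : Real.exp (-(nn j * Real.exp (-(θ * b)))) ≤ Real.exp (-(Real.exp (η * b) / 2)) := Real.exp_le_exp.2 (by linarith)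
    have h9 : Real.exp (-(Real.exp (η * b) / 2)) ≤ 2 * Real.exp (-(η * b)) := by
      have h10 : Real.exp (η * b) / 2 ≤ Real.exp (Real.exp (η * b) / 2) := by
        have := Real.add_one_le_exp (Real.exp (η * b) / 2)
        linarith
      rw [Real.exp_neg, Real.exp_neg]
      have h11 : (Real.exp (Real.exp (η * b) / 2))⁻¹ ≤ (Real.exp (η * b) / 2)⁻¹ := inv_anti₀ (by positivity) h10
      refine h11.trans (le_of_eq ?_)
      rw [inv_div]
      ring
    have key : ∀ d ∈ Finset.Icc 1 (gg lam j), μ.real (Bad j d) ≤ 2 * Real.exp (-(η * b)) := by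
      intro d hd'
      rw [Finset.mem_Icc] at hd'
      simp only [hBad]
      split_ifs with hev
      · have hcQ := hccQ j d (hclj d hev (by omega) hd'.2)
        have h1 := trials (μ := μ) (hsmono j d) (hDm j d) (p := Real.exp (-(θ * b))) (n := nn j) (by
          intro k hk C hC
          simp only [hD]
          rw [if_pos ⟨by omega, hd'.2⟩]
          have h2 := gap_lower (μ := μ) hA (l := ll) (u := uu z δ) (fun n => (ll_01 n).1) (fun n => (ll_01 n).2)
            (fun n => (uu_01 z hδ n).1) (fun n => (uu_01 z hδ n).2) (s j d k) (d - 1) hC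
          refine le_trans (mul_le_mul_of_nonneg_right ?_ measureReal_nonneg) h2
          have hst : s j d k + 1 = tt j d k := by
            have := htt1 j d k
            simp only [hs]
            omega
          have hg1 := ht1 j d k
          have hg2 := ht2 j d k hk hd'.2
          rw [hst, win_prod2 z δ hg1 (by omega) (httmod j d k)]
          have e1 : ll (s j d k) = 1 / (2 * ((j : ℝ) + 1)) := by
            unfold ll
            have : Nat.log 2 (s j d k + 1) = j := by
              rw [hst, Nat.log_eq_iff (Or.inr ⟨by norm_num, by omega⟩)]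
              omega
            rw [this]
          have e2 : ll (tt j d k + (d - 1)) = 1 / (2 * ((j : ℝ) + 1)) := by
            unfold ll
            have : Nat.log 2 (tt j d k + (d - 1) + 1) = j := by
              rw [Nat.log_eq_iff (Or.inr ⟨by norm_num, by omega⟩)]
              omega
            rw [this]
          rw [e1, e2, show d - 1 + 1 = d by omega]
          have h3 := hj.1 (surv (z j) (cc j d) d).card hcQ.2.2
          refine h3.trans (le_of_eq ?_)
          ring)
        exact h1.trans (h8.trans h9)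
      · rw [measureReal_empty]
        positivity
    have h10 : (Real.exp (-(η / 2 * Real.log 2))) ^ j = Real.exp (-(η / 2 * b)) := by
      rw [← Real.exp_nat_mul]
      congr 1
      rw [hb]
      ring
    rw [h10]
    calc μ.real (⋃ d ∈ Finset.Icc 1 (gg lam j), Bad j d) ≤ ∑ d ∈ Finset.Icc 1 (gg lam j), μ.real (Bad j d) :=
          measureReal_biUnion_finset_le _ _
      _ ≤ ∑ _d ∈ Finset.Icc 1 (gg lam j), 2 * Real.exp (-(η * b)) := Finset.sum_le_sum key
      _ = (gg lam j : ℝ) * (2 * Real.exp (-(η * b))) := by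
          rw [Finset.sum_const, Nat.card_Icc, Nat.add_sub_cancel, nsmul_eq_mul]
      _ ≤ Real.exp (η / 2 * b) * (2 * Real.exp (-(η * b))) := by
          apply mul_le_mul_of_nonneg_right _ (by positivity)
          linarith [hj.2.2]
      _ = 2 * Real.exp (-(η / 2 * b)) := by
          rw [mul_left_comm, ← Real.exp_add]
          congr 2
          ring
  have h01 : ∀ᵐ ω ∂μ, ∀ n, 0 ≤ dens μ ℱ A n ω ∧ dens μ ℱ A n ω ≤ 1 := ae_all_iff.2 fun n => dens01 hA n
  filter_upwards [hbc, hzero, hd, h01] with ω hω1 hω2 hω3 hω4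
  obtain ⟨n₀, hn₀⟩ := eventually_atTop.1 ((hω3 δ hδ).and (eventually_ge_atTop 4))
  have hbasic : ∀ n, n₀ ≤ n → 0 < (Nat.log 2 (n + 1) : ℝ) ∧ (Nat.log 2 (n + 1) : ℝ) * Real.log 2 ≤ Real.log ((n : ℝ) + 1) ∧
      Real.log ((n : ℝ) + 1) ≤ ((Nat.log 2 (n + 1) : ℝ) + 1) * Real.log 2 := by
    intro n hn
    obtain ⟨h1, h2⟩ := hn₀ n hn
    have hj1 : 1 ≤ Nat.log 2 (n + 1) := Nat.log_pos (by norm_num) (by omega)
    refine ⟨by exact_mod_cast hj1, ?_, ?_⟩
    · have h5 : 2 ^ Nat.log 2 (n + 1) ≤ n + 1 := Nat.pow_log_le_self 2 (by omega)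
      have h6 : (2 : ℝ) ^ Nat.log 2 (n + 1) ≤ (n : ℝ) + 1 := by exact_mod_cast h5
      have h7 := Real.log_le_log (by positivity) h6
      rwa [Real.log_pow] at h7
    · have h5 : n + 1 < 2 ^ (Nat.log 2 (n + 1) + 1) := Nat.lt_pow_succ_log_self (by norm_num) _
      have h6 : (n : ℝ) + 1 ≤ (2 : ℝ) ^ (Nat.log 2 (n + 1) + 1) := by exact_mod_cast h5.le
      have h7 := Real.log_le_log (by positivity) h6
      rw [Real.log_pow] at h7
      push_cast at h7
      exact h7
  have hviol : ∀ n, n₀ ≤ n → ω ∉ VU μ ℱ A (uu z δ) n := by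
    intro n hn hω
    obtain ⟨h1, h2⟩ := hn₀ n hn
    have h3 : uu z δ n < dens μ ℱ A n ω := hω
    unfold uu at h3
    split_ifs at h3 with h4
    · have h5 := (h1 h4).1
      obtain ⟨hj0, hlogn, _⟩ := hbasic n hn
      have hb0 : 0 < (Nat.log 2 (n + 1) : ℝ) * Real.log 2 := by positivity
      have h6 : dens μ ℱ A n ω ≤ (1 + δ) * MM (z (Nat.log 2 (n + 1))) / ((Nat.log 2 (n + 1) : ℝ) * Real.log 2) := by
        rw [le_div_iff₀ hb0]
        refine le_trans ?_ h5
        exact mul_le_mul_of_nonneg_left hlogn (hω4 n).1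
      have h7 := le_min (hω4 n).2 h6
      linarith
    · have h5 := hω2 n h4
      linarith
  have hlviol : ∀ n, n₀ ≤ n → (∀ p ∈ PZ (z (Nat.log 2 (n + 1))), ¬ p ∣ n + 1) → ω ∉ VL μ ℱ A ll n := by
    intro n hn hsv hω
    obtain ⟨h1, h2⟩ := hn₀ n hn
    have h3 : dens μ ℱ A n ω < ll n := hω
    have h5 := (h1 hsv).2
    obtain ⟨hj0, _, hlogn⟩ := hbasic n hn
    have hMM1 : 1 ≤ MM (z (Nat.log 2 (n + 1))) := by
      have h6 := sum_inv_le (Nat.zero_le (z (Nat.log 2 (n + 1))))
      have h7 : MM 0 = 1 := by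
        unfold MM PZ
        simp
      rw [h7, div_one] at h6
      have h8 : 0 ≤ ∑ p ∈ (PZ (z (Nat.log 2 (n + 1)))).filter (0 < ·), (p : ℝ)⁻¹ := Finset.sum_nonneg fun p _ => by positivity
      linarith
    unfold ll at h3
    rw [lt_div_iff₀ (by positivity)] at h3
    have h6 : 1 / 2 ≤ (1 - δ) * MM (z (Nat.log 2 (n + 1))) := by nlinarith
    have h7 : dens μ ℱ A n ω * Real.log ((n : ℝ) + 1) ≤ dens μ ℱ A n ω * ((Nat.log 2 (n + 1) : ℝ) + 1) := by
      apply mul_le_mul_of_nonneg_left _ (hω4 n).1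
      refine hlogn.trans ?_
      have := Real.log_two_lt_d9
      nlinarith
    linarith
  filter_upwards [hω1, eventually_ge_atTop (n₀ + 1), hcl] with j hj hjn hclj d hev hd0 hdg
  rw [Set.mem_iUnion₂] at hj
  push Not at hj
  have h1 := hj d (Finset.mem_Icc.2 ⟨hd0, hdg⟩)
  simp only [hBad, if_pos hev, Set.mem_ofPred_eq, not_forall, not_not] at h1
  obtain ⟨k, hk, hω⟩ := h1
  have hcQ := hccQ j d (hclj d hev hd0 hdg)
  have hg1 := ht1 j d k
  have hg2 := ht2 j d k hk hdg
  have hjt : j < 2 ^ j := Nat.lt_two_pow_self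
  have hst : s j d k + 1 = tt j d k := by
    have := htt1 j d k
    simp only [hs]
    omega
  simp only [hD] at hω
  rw [if_pos ⟨hd0, hdg⟩] at hω
  unfold GE at hω
  rw [hst] at hω
  obtain ⟨⟨ha, hb⟩, hc⟩ := hω
  rw [show tt j d k + (d - 1) + 1 = tt j d k + d by omega] at hc
  refine ⟨tt j d k, hg1, hg2, ?_, ?_, ?_⟩
  · rcases ha with h | h
    · exact h
    · exfalso
      refine hlviol (s j d k) (by omega) ?_ h
      rw [hst]
      have e : Nat.log 2 (tt j d k) = j := by
        rw [Nat.log_eq_iff (Or.inr ⟨by norm_num, by omega⟩)]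
        omega
      rw [e]
      intro p hp hpd
      exact (hcQ.2.1 p hp).1 (((httmod j d k p hp).dvd_iff (dvd_refl p)).1 hpd)
  · rcases hc with h | h
    · exact h
    · exfalso
      refine hlviol (tt j d k + (d - 1)) (by omega) ?_ h
      rw [show tt j d k + (d - 1) + 1 = tt j d k + d by omega]
      have e : Nat.log 2 (tt j d k + d) = j := by
        rw [Nat.log_eq_iff (Or.inr ⟨by norm_num, by omega⟩)]
        omega
      rw [e]
      intro p hp hpd
      exact (hcQ.2.1 p hp).2 ((((httmod j d k p hp).add_right d).dvd_iff (dvd_refl p)).1 hpd)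
  · intro r hr1 hr2
    rcases hb with h | h
    · exact h r hr1 (by omega)
    · exfalso
      obtain ⟨n, h1, h2, h3⟩ := h
      exact hviol n (by omega) h3

end Pool.Agent.N732.GW
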